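import Pool.Agent.H167R2.KNLin

/-!
Small facets of Vietoris-Rips complexes of cubes: rounding the barycenter of a facet.
-/

set_option autoImplicit false

namespace X225.Fct

open Finset

theorem one_add_log_le (n : ℕ) (hn : 1 ≤ n) :
    (1 + Real.log n) ^ 3 ≤ 216 * Real.sqrt n := by
  have hn1 : (1 : ℝ) ≤ n := by exact_mod_cast hn
  have hn0 : (0 : ℝ) ≤ n := by linarith
  set t : ℝ := (n : ℝ) ^ (1 / 6 : ℝ) with ht
  have ht1 : 1 ≤ t := Real.one_le_rpow hn1 (by norm_num)
  have h1 : Real.log n = 6 * Real.log t := by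
    rw [ht, Real.log_rpow (by linarith)]; ring
  have h2 : Real.log t ≤ t - 1 := Real.log_le_sub_one_of_pos (by linarith)
  have h3 : 0 ≤ Real.log n := Real.log_nonneg hn1
  have h4 : 1 + Real.log n ≤ 6 * t := by linarith
  have h5 : t ^ 3 = Real.sqrt n := by
    rw [ht, ← Real.rpow_natCast, ← Real.rpow_mul hn0, Real.sqrt_eq_rpow]
    norm_num
  calc (1 + Real.log n) ^ 3 ≤ (6 * t) ^ 3 := by
        apply pow_le_pow_left₀ (by linarith) h4
    _ = 216 * t ^ 3 := by ring
    _ = 216 * Real.sqrt n := by rw [h5]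

/-- sign of a bit -/
def sb (b : Bool) : ℝ := if b then 1 else -1

lemma abs_sb (b : Bool) : |sb b| = 1 := by
  unfold sb
  cases b <;> simp

theorem round {n s : ℕ} (hs : 1 ≤ s) (c : Fin s → Fin n → Bool) (x0 : Fin n → ℝ)
    (hx0 : ∀ t, |x0 t| ≤ 1) :
    ∃ x : Fin n → Bool, ∀ i, |∑ t, sb (c i t) * (sb (x t) - x0 t)| ≤
      50000000000 * Real.sqrt s := by
  classical
  have hn1 : (1 : ℝ) ≤ s := by exact_mod_cast hs
  have hn0 : (0 : ℝ) < s := by linarith
  have hs0 : 0 < Real.sqrt s := Real.sqrt_pos.2 hn0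
  have hs1 : 1 ≤ Real.sqrt s := by
    rw [Real.one_le_sqrt]; exact hn1
  set δ : ℝ := 1 / Real.sqrt s with hδ
  have hδ0 : 0 < δ := by positivity
  have hδ1 : δ ≤ 1 := by
    rw [hδ, div_le_one hs0]; exact hs1
  have hδ2 : δ ^ 2 = 1 / s := by
    rw [hδ, div_pow, Real.sq_sqrt hn0.le, one_pow]
  set a : Fin s → Fin n → ℝ := fun i t => δ * sb (c i t) with ha
  have hent : ∀ i t, |a i t| ≤ δ := by
    intro i t
    simp only [ha]
    rw [abs_mul, abs_sb, abs_of_pos hδ0, mul_one]
  have hcol : ∀ t, ∑ i, a i t ^ 2 ≤ 1 := by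
    intro t
    have h1 : ∀ i, a i t ^ 2 = 1 / s := by
      intro i
      simp only [ha]
      rw [mul_pow, hδ2, ← sq_abs (sb _), abs_sb, one_pow, mul_one]
    rw [sum_congr rfl fun i _ => h1 i, sum_const, card_univ, Fintype.card_fin, nsmul_eq_mul]
    apply le_of_eq
    field_simp
  have hnb : ∀ t, (H167BK.nb a t).card ≤ n + 1 := by
    intro t
    refine (card_le_univ _).trans ?_
    rw [Fintype.card_fin]
    omega
  obtain ⟨y, hy1, hy2⟩ := H167KN.komlos_form2 a δ hδ0 hδ1 hent hcol (n + 1)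
    (by omega) hnb 0 x0 hx0
  set L : ℝ := Real.log s with hL
  have hL0 : 0 ≤ L := Real.log_nonneg hn1
  have hlogδ : Real.log (1 / δ) = L / 2 := by
    rw [hδ, one_div_one_div, Real.log_sqrt hn0.le]
  have hcube := one_add_log_le s hs
  rw [← hL] at hcube
  have hlam : (1 + L / 2) ^ (3 / 2 : ℝ) ≤ (1 + L) ^ 2 := by
    calc (1 + L / 2) ^ (3 / 2 : ℝ) ≤ (1 + L / 2) ^ (2 : ℝ) :=
          Real.rpow_le_rpow_of_exponent_le (by linarith) (by norm_num)
      _ ≤ (1 + L) ^ (2 : ℝ) := Real.rpow_le_rpow (by linarith) (by linarith) (by norm_num)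
      _ = (1 + L) ^ 2 := by norm_num [Real.rpow_natCast]
  have hkey : ∀ w : ℝ, 0 ≤ w → w ≤ 3 * (1 + L) →
      1 + δ * w * (1 + L / 2) ^ (3 / 2 : ℝ) ≤ 649 := by
    intro w hw0 hw
    have hp : 0 ≤ (1 + L / 2) ^ (3 / 2 : ℝ) := by positivity
    have h1 : δ * w * (1 + L / 2) ^ (3 / 2 : ℝ) ≤ δ * (3 * (1 + L)) * (1 + L) ^ 2 := by
      apply mul_le_mul (mul_le_mul_of_nonneg_left hw hδ0.le) hlam hp
      positivity
    have h2 : δ * (3 * (1 + L)) * (1 + L) ^ 2 = 3 * (δ * (1 + L) ^ 3) := by ring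
    have h3 : δ * (1 + L) ^ 3 ≤ 216 := by
      rw [hδ, one_div, inv_mul_le_iff₀ hs0]
      linarith
    linarith
  have hm0 : ∀ m : ℝ, 0 ≤ m → m ≤ s → Real.sqrt (1 + L / 2 + Real.log (1 + m)) ≤
      3 * (1 + L) := by
    intro m hm0 hm
    have h1 : Real.log (1 + m) ≤ 1 + L := by
      have h2 : Real.log (1 + m) ≤ Real.log (2 * s) := by
        apply Real.log_le_log (by linarith)
        linarith
      rw [Real.log_mul (by norm_num) hn0.ne'] at h2
      have h4 : Real.log 2 ≤ 1 := by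
        have := Real.log_two_lt_d9; linarith
      linarith
    rw [Real.sqrt_le_left (by linarith)]
    nlinarith
  have hbound : ∀ i, |∑ t, a i t * (y t - x0 t)| ≤ 70000000 * 649 := by
    intro i
    refine (hy2 i).trans ?_
    apply mul_le_mul_of_nonneg_left _ (by norm_num)
    have hm : ((min (Fintype.card (Fin s)) (Fintype.card (Fin n)) : ℕ) : ℝ) ≤ s := by
      exact_mod_cast (min_le_left _ _).trans (by rw [Fintype.card_fin])
    have hm' : (0 : ℝ) ≤ ((min (Fintype.card (Fin s)) (Fintype.card (Fin n)) : ℕ) : ℝ) :=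
      Nat.cast_nonneg _
    rw [hlogδ]
    generalize ((min (Fintype.card (Fin s)) (Fintype.card (Fin n)) : ℕ) : ℝ) = m at hm hm'
    have e1 : (H167BK.slog^[0 + 1]) m = Real.log (1 + m) := by
      simp [H167BK.slog]
    rw [e1]
    have h2 := hkey _ (Real.sqrt_nonneg _) (hm0 m hm' hm)
    have h4 := (min_le_right ((1 + L / 2 + Real.log (1 + m)) ^ (1 / 4 : ℝ)) _).trans h2
    rw [Nat.cast_zero, zero_mul, zero_add]
    exact h4
  refine ⟨fun t => decide (y t = 1), fun i => ?_⟩
  have e2 : ∀ t, sb (decide (y t = 1)) = y t := by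
    intro t
    unfold sb
    rcases eq_or_eq_neg_of_abs_eq (hy1 t) with h | h
    · simp [h]
    · have h' : y t ≠ 1 := by rw [h]; norm_num
      simp only [decide_eq_true_eq, if_neg h']
      exact h.symm
  have e3 : ∑ t, a i t * (y t - x0 t) =
      δ * ∑ t, sb (c i t) * (sb (decide (y t = 1)) - x0 t) := by
    rw [mul_sum]
    refine sum_congr rfl fun t _ => ?_
    simp only [ha]
    rw [e2]
    ring
  have h5 := hbound i
  rw [e3, abs_mul, abs_of_pos hδ0, hδ, one_div, inv_mul_le_iff₀ hs0] at h5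
  linarith

lemma dist_eq {n : ℕ} (x c : Fin n → Bool) :
    ∑ t, sb (c t) * sb (x t) = n - 2 * (hammingDist x c : ℝ) := by
  unfold hammingDist
  rw [card_filter]
  push_cast
  rw [mul_sum]
  have h1 : (n : ℝ) = ∑ _t : Fin n, (1 : ℝ) := by simp
  conv_rhs => rw [h1]
  rw [← sum_sub_distrib]
  refine sum_congr rfl fun t _ => ?_
  unfold sb
  cases c t <;> cases x t <;> norm_num

theorem facet_large {n r : ℕ} (hr : 1 ≤ r) (hn : r ≤ n) (S : Finset (Fin n → Bool))
    (hS : S.Nonempty) (hd : ∀ x ∈ S, ∀ y ∈ S, hammingDist x y ≤ r)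
    (hmax : ∀ x, (∀ y ∈ S, hammingDist x y ≤ r) → x ∈ S) :
    (r : ℝ) ≤ 50000000000 * (S.card * Real.sqrt S.card) := by
  classical
  by_contra hcon
  push Not at hcon
  obtain ⟨s, hsc⟩ : ∃ s, S.card = s := ⟨_, rfl⟩
  rw [hsc] at hcon
  have hs : 1 ≤ s := by
    rw [← hsc]
    exact card_pos.2 hS
  have hsR : (1 : ℝ) ≤ s := by exact_mod_cast hs
  have hs0 : (0 : ℝ) < s := by linarith
  let e := S.equivFinOfCardEq hsc
  let c : Fin s → Fin n → Bool := fun i => (e.symm i).1
  have hc : ∀ i, c i ∈ S := fun i => (e.symm i).2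
  have hce : ∀ x ∈ S, ∃ i, c i = x := by
    intro x hx
    exact ⟨e ⟨x, hx⟩, by simp [c]⟩
  let x0 : Fin n → ℝ := fun t => (∑ j, sb (c j t)) / s
  have hx0 : ∀ t, |x0 t| ≤ 1 := by
    intro t
    change |(∑ j, sb (c j t)) / s| ≤ 1
    rw [abs_div, abs_of_pos hs0, div_le_one hs0]
    refine (abs_sum_le_sum_abs _ _).trans ?_
    rw [sum_congr rfl fun j _ => abs_sb _]
    simp
  obtain ⟨x, hx⟩ := round hs c x0 hx0
  set E : ℝ := 50000000000 * Real.sqrt s with hE
  -- the error in terms of distances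
  have key : ∀ i, |s * (hammingDist x (c i) : ℝ) - ∑ j, (hammingDist (c j) (c i) : ℝ)| ≤
      s * E / 2 := by
    intro i
    have h1 : ∑ t, sb (c i t) * (sb (x t) - x0 t) =
        (n - 2 * (hammingDist x (c i) : ℝ)) -
          (∑ j, (n - 2 * (hammingDist (c j) (c i) : ℝ))) / s := by
      rw [← dist_eq]
      have h2 : ∑ t, sb (c i t) * x0 t = (∑ j, (n - 2 * (hammingDist (c j) (c i) : ℝ))) / s := by
        rw [sum_congr rfl fun j _ => (dist_eq (c j) (c i)).symm, sum_comm, sum_div]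
        refine sum_congr rfl fun t _ => ?_
        change sb (c i t) * ((∑ j, sb (c j t)) / s) = _
        rw [← mul_sum]
        ring
      rw [← h2, ← sum_sub_distrib]
      exact sum_congr rfl fun t _ => by ring
    have h3 := hx i
    rw [h1, sum_sub_distrib, sum_const, card_univ, Fintype.card_fin, nsmul_eq_mul,
      ← mul_sum] at h3
    have h4 : (n - 2 * (hammingDist x (c i) : ℝ)) -
        ((s : ℝ) * n - 2 * ∑ j, (hammingDist (c j) (c i) : ℝ)) / s =
        -(2 / s) * (s * (hammingDist x (c i) : ℝ) - ∑ j, (hammingDist (c j) (c i) : ℝ)) := by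
      field_simp
      ring
    rw [h4, abs_mul, abs_neg, abs_of_pos (by positivity : (0 : ℝ) < 2 / s), div_mul_eq_mul_div,
      div_le_iff₀ hs0] at h3
    linarith
  have hsE : s * E < r := by
    have : s * E = 50000000000 * (s * Real.sqrt s) := by rw [hE]; ring
    rw [this]
    exact hcon
  have hr0 : (0 : ℝ) < r := by
    have : (1 : ℝ) ≤ r := by exact_mod_cast hr
    linarith
  have hxS : x ∈ S := by
    apply hmax
    intro y hy
    obtain ⟨i, rfl⟩ := hce y hy
    have h1 := (abs_le.1 (key i)).2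
    have h2 : ∑ j, (hammingDist (c j) (c i) : ℝ) ≤ (s - 1) * r := by
      rw [← sum_erase_add _ _ (mem_univ i), hammingDist_self, Nat.cast_zero, add_zero]
      refine (sum_le_sum (g := fun _ => (r : ℝ)) fun j _ => ?_).trans ?_
      · exact_mod_cast hd _ (hc j) _ (hc i)
      · rw [sum_const, card_erase_of_mem (mem_univ i), card_univ, Fintype.card_fin,
          nsmul_eq_mul, Nat.cast_sub hs, Nat.cast_one]
    have h3 : s * (hammingDist x (c i) : ℝ) ≤ s * r := by
      linarith
    have h4 : (hammingDist x (c i) : ℝ) ≤ r := le_of_mul_le_mul_left h3 hs0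
    exact_mod_cast h4
  obtain ⟨i₀, hi₀⟩ := hce x hxS
  have hclose : ∀ y ∈ S, hammingDist x y + 1 ≤ r := by
    intro y hy
    obtain ⟨i, rfl⟩ := hce y hy
    have h1 := (abs_le.1 (key i₀)).1
    rw [hi₀, hammingDist_self, Nat.cast_zero, mul_zero, zero_sub] at h1
    have h2 : (hammingDist (c i) x : ℝ) ≤ ∑ j, (hammingDist (c j) x : ℝ) :=
      single_le_sum (f := fun j => (hammingDist (c j) x : ℝ)) (fun j _ => Nat.cast_nonneg _)
        (mem_univ i)
    have h3 : 2 * (hammingDist (c i) x : ℝ) < r := by linarith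
    have h4 : 2 * hammingDist (c i) x < r := by exact_mod_cast h3
    rw [hammingDist_comm]
    omega
  have hflip : ∀ t : Fin n, Function.update x t (!x t) ∈ S := by
    intro t
    apply hmax
    intro y hy
    have h1 : hammingDist (Function.update x t (!x t)) x ≤ 1 := by
      unfold hammingDist
      refine (card_le_card (t := {t}) fun j hj => ?_).trans (by simp)
      rw [mem_filter] at hj
      rw [mem_singleton]
      by_contra h
      exact hj.2 (by rw [Function.update_of_ne h])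
    have h2 := hammingDist_triangle (Function.update x t (!x t)) x y
    have h3 := hclose y hy
    omega
  have hns : n ≤ s := by
    have hcu : (univ : Finset (Fin n)).card = n := by simp
    rw [← hsc]
    refine hcu.symm.le.trans ?_
    refine card_le_card_of_injOn (fun t => Function.update x t (!x t)) (fun t _ => hflip t) ?_
    intro t _ t' _ h
    by_contra hne
    have h1 := congrFun h t
    simp only [Function.update_self] at h1
    rw [Function.update_of_ne hne] at h1
    revert h1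
    cases x t <;> simp
  have h1 : (r : ℝ) ≤ s := by exact_mod_cast hn.trans hns
  have h2 : 1 ≤ Real.sqrt s := by
    rw [Real.one_le_sqrt]; exact hsR
  have h3 : (s : ℝ) * 1 ≤ s * Real.sqrt s := mul_le_mul_of_nonneg_left h2 hs0.le
  linarith

end X225.Fct
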