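import Pool.Agent.X225.Fct.Sparse

/-!
Discrepancy of semi-random matrices.
-/

set_option autoImplicit false
open Classical

namespace X225.Fct

open Finset

/-- deterministic part -/
theorem det_part (m n : ℕ) (t : ℝ) (ht : 3 ≤ t) (hlog : Real.log ((m : ℝ) + n) ≤ t)
    (A : Fin m → Fin n → Bool)
    (hA : ∀ j, ((univ.filter fun i => A i j = true).card : ℝ) ≤ 5 * t) :
    ∃ x : Fin n → Bool, ∀ i, |∑ j, (if A i j then (if x j then (1 : ℝ) else -1) else 0)| ≤
      6000000000000 * Real.sqrt t * (Real.log t) ^ 2 := by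
  obtain ⟨y, hy, hb⟩ := general (5 * t) (by linarith)
    (fun (i : Fin m) (j : Fin n) => if A i j = true then (1 : ℝ) else 0)
    (by
      intro i j
      split_ifs <;> simp)
    (by
      intro j
      refine le_trans (le_of_eq ?_) (hA j)
      rw [card_filter]
      push_cast
      refine sum_congr rfl fun i _ => ?_
      split_ifs <;> simp)
  refine ⟨fun j => decide (y j = 1), fun i => ?_⟩
  have e : ∑ j, (if A i j then (if (decide (y j = 1) : Bool) then (1 : ℝ) else -1) else 0) =
      ∑ j, (if A i j = true then (1 : ℝ) else 0) * y j := by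
    refine sum_congr rfl fun j _ => ?_
    by_cases h : A i j = true
    · rw [if_pos h, if_pos h, one_mul]
      rcases hy j with h2 | h2
      · simp [h2]
      · have : y j ≠ 1 := by rw [h2]; norm_num
        simp [h2]
        norm_num
    · rw [if_neg h, if_neg h, zero_mul]
  rw [e]
  refine (hb i).trans ?_
  have hs0 : 0 ≤ Real.sqrt t := Real.sqrt_nonneg t
  have ht0 : 0 < t := by linarith
  have hL1 : 1 ≤ Real.log t := by
    rw [Real.le_log_iff_exp_le ht0]
    have := Real.exp_one_lt_d9
    linarith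
  have h1 : Real.sqrt (5 * t) ≤ 3 * Real.sqrt t := by
    rw [Real.sqrt_le_left (by positivity)]
    rw [mul_pow, Real.sq_sqrt ht0.le]
    linarith
  have h2 : Real.log (1 + ((min m n : ℕ) : ℝ)) ≤ 1 + t := by
    by_cases hmn : m + n = 0
    · have hm : m = 0 := by omega
      have hn : n = 0 := by omega
      subst hm
      subst hn
      simp
      linarith
    · have h3 : (1 : ℝ) ≤ (m : ℝ) + n := by
        have : 1 ≤ m + n := by omega
        exact_mod_cast this
      have h4 : ((min m n : ℕ) : ℝ) ≤ (m : ℝ) + n := by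
        have : min m n ≤ m + n := by omega
        exact_mod_cast this
      have h5 : Real.log (1 + ((min m n : ℕ) : ℝ)) ≤ Real.log (2 * ((m : ℝ) + n)) := by
        apply Real.log_le_log
        · have : (0 : ℝ) ≤ ((min m n : ℕ) : ℝ) := Nat.cast_nonneg _
          linarith
        · linarith
      rw [Real.log_mul (by norm_num) (by linarith)] at h5
      have h6 : Real.log 2 ≤ 1 := by
        have := Real.log_two_lt_d9; linarith
      linarith
  have h3 : Real.sqrt (Real.log (1 + ((min m n : ℕ) : ℝ))) ≤ 2 * Real.sqrt t := by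
    rw [Real.sqrt_le_left (by positivity)]
    rw [mul_pow, Real.sq_sqrt ht0.le]
    linarith
  have h4 : 1 + Real.log (5 * t) ≤ 5 * Real.log t := by
    rw [Real.log_mul (by norm_num) ht0.ne']
    have h5 : Real.log 5 ≤ Real.log 8 := Real.log_le_log (by norm_num) (by norm_num)
    have h6 : Real.log 8 = 3 * Real.log 2 := by
      rw [show (8 : ℝ) = 2 ^ 3 by norm_num, Real.log_pow]
      norm_num
    have := Real.log_two_lt_d9
    linarith
  have h5 : 0 ≤ 1 + Real.log (5 * t) := by
    have : 0 ≤ Real.log (5 * t) := Real.log_nonneg (by linarith)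
    linarith
  have h6 : (1 + Real.log (5 * t)) ^ 2 ≤ 25 * (Real.log t) ^ 2 := by
    have := pow_le_pow_left₀ h5 h4 2
    rw [mul_pow] at this
    norm_num at this ⊢
    exact this
  have h7 : Real.sqrt (Real.log (1 + ((min m n : ℕ) : ℝ))) * (1 + Real.log (5 * t)) ^ 2 ≤
      2 * Real.sqrt t * (25 * (Real.log t) ^ 2) :=
    mul_le_mul h3 h6 (by positivity) (by positivity)
  have h8 : Real.sqrt t * 1 ≤ Real.sqrt t * (Real.log t) ^ 2 :=
    mul_le_mul_of_nonneg_left (one_le_pow₀ hL1) hs0
  nlinarith

lemma prod_sum2 {m n : ℕ} (f : Fin m → Fin n → Bool → ℝ) :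
    ∑ A : Fin m → Fin n → Bool, ∏ i, ∏ j, f i j (A i j) = ∏ i, ∏ j, ∑ b, f i j b := by
  have h1 : ∀ i : Fin m, ∏ j, ∑ b, f i j b = ∑ a : Fin n → Bool, ∏ j, f i j (a j) := by
    intro i
    rw [Finset.prod_univ_sum, Fintype.piFinset_univ]
  rw [prod_congr rfl fun i _ => h1 i, Finset.prod_univ_sum, Fintype.piFinset_univ]

/-- one column -/
theorem prob_part (m n : ℕ) (t : ℝ) (ht : 0 ≤ t) (P : Fin m → Fin n → ℝ)
    (hP : ∀ i j, 0 ≤ P i j ∧ P i j ≤ 1) (j : Fin n) (hcol : ∑ i, P i j ≤ t) :
    ∑ A : Fin m → Fin n → Bool,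
      (if 5 * t < ((univ.filter fun i => A i j = true).card : ℝ) then
        ∏ i, ∏ j, (if A i j then P i j else 1 - P i j) else 0) ≤ Real.exp (-2 * t) := by
  let w : (Fin m → Fin n → Bool) → ℝ := fun A => ∏ i, ∏ j, (if A i j then P i j else 1 - P i j)
  have hw : ∀ A, 0 ≤ w A := by
    intro A
    refine prod_nonneg fun i _ => prod_nonneg fun j _ => ?_
    split_ifs
    · exact (hP i j).1
    · linarith [(hP i j).2]
  have h1 : ∀ A : Fin m → Fin n → Bool,
      (if 5 * t < ((univ.filter fun i => A i j = true).card : ℝ) then w A else 0) ≤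
      Real.exp (-3 * t) * ∏ i, ∏ j', ((if A i j' then P i j' else 1 - P i j') *
        (if j' = j ∧ A i j' = true then 2 else 1)) := by
    intro A
    have h2 : ∏ i, ∏ j', ((if A i j' then P i j' else 1 - P i j') *
        (if j' = j ∧ A i j' = true then (2 : ℝ) else 1)) =
        w A * 2 ^ (univ.filter fun i => A i j = true).card := by
      simp only [prod_mul_distrib]
      congr 1
      have h3 : ∀ i, ∏ j', (if j' = j ∧ A i j' = true then (2 : ℝ) else 1) =
          if A i j = true then 2 else 1 := by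
        intro i
        rw [prod_eq_single j]
        · simp
        · intro j' _ hj'
          rw [if_neg]
          rintro ⟨h, -⟩
          exact hj' h
        · intro h
          exact absurd (mem_univ _) h
      rw [prod_congr rfl fun i _ => h3 i, prod_ite, prod_const_one, mul_one, prod_const]
    rw [h2]
    split_ifs with h
    · have h3 : Real.exp (3 * t) ≤ 2 ^ (univ.filter fun i => A i j = true).card := by
        have h4 : (2 : ℝ) ^ (univ.filter fun i => A i j = true).card =
            Real.exp (Real.log 2 * (univ.filter fun i => A i j = true).card) := by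
          rw [mul_comm, Real.exp_nat_mul, Real.exp_log (by norm_num)]
        rw [h4, Real.exp_le_exp]
        have h5 := Real.log_two_gt_d9
        nlinarith
      have h4 : Real.exp (-3 * t) * Real.exp (3 * t) = 1 := by
        rw [← Real.exp_add]
        simp
      have h5 : w A * 1 ≤ w A *
          (Real.exp (-3 * t) * 2 ^ (univ.filter fun i => A i j = true).card) := by
        apply mul_le_mul_of_nonneg_left _ (hw A)
        rw [← h4]
        exact mul_le_mul_of_nonneg_left h3 (Real.exp_pos _).le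
      linarith
    · have := hw A
      positivity
  refine (sum_le_sum fun A _ => h1 A).trans ?_
  rw [← mul_sum, prod_sum2 (fun i j' b => (if b then P i j' else 1 - P i j') *
        (if j' = j ∧ b = true then 2 else 1))]
  have h2 : ∀ i, ∏ j', ∑ b : Bool, ((if b then P i j' else 1 - P i j') *
        (if j' = j ∧ b = true then (2 : ℝ) else 1)) = 1 + P i j := by
    intro i
    rw [prod_eq_single j]
    · simp
      ring
    · intro j' _ hj'
      simp [hj']
    · intro h
      exact absurd (mem_univ _) h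
  rw [prod_congr rfl fun i _ => h2 i]
  have h3 : ∏ i, (1 + P i j) ≤ Real.exp t := by
    calc ∏ i, (1 + P i j) ≤ ∏ i, Real.exp (P i j) := by
          refine prod_le_prod (fun i _ => by linarith [(hP i j).1]) fun i _ => ?_
          have := Real.add_one_le_exp (P i j)
          linarith
      _ = Real.exp (∑ i, P i j) := (Real.exp_sum _ _).symm
      _ ≤ Real.exp t := Real.exp_le_exp.2 hcol
  calc Real.exp (-3 * t) * ∏ i, (1 + P i j) ≤ Real.exp (-3 * t) * Real.exp t :=
        mul_le_mul_of_nonneg_left h3 (Real.exp_pos _).le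
    _ = Real.exp (-2 * t) := by
        rw [← Real.exp_add]
        congr 1
        ring

theorem semi_random :
  ∃ δ : ℝ, 0 < δ ∧ ∃ C : ℝ, 0 < C ∧ ∃ K : ℝ, 0 < K ∧ ∃ k : ℕ,
    ∀ ε : ℝ, 0 < ε → ∃ N : ℕ, ∀ m n : ℕ, N ≤ m + n →
      ∀ t : ℝ, C * Real.log ((m : ℝ) + n) ≤ t →
      ∀ P : Fin m → Fin n → ℝ, (∀ i j, 0 ≤ P i j ∧ P i j ≤ δ) →
        (∀ j, ∑ i, P i j ≤ t) →
        ∑ A ∈ (Finset.univ : Finset (Fin m → Fin n → Bool)).filter
            (fun A => ∀ x : Fin n → Bool, ∃ i,
              K * Real.sqrt t * (Real.log t) ^ k <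
                |∑ j, (if A i j then (if x j then (1 : ℝ) else -1) else 0)|),
          ∏ i, ∏ j, (if A i j then P i j else 1 - P i j) ≤ ε := by
  refine ⟨1, one_pos, 3, by norm_num, 6000000000000, by norm_num, 2, fun ε hε => ?_⟩
  obtain ⟨N₀, hN₀⟩ := exists_nat_gt (1 / ε)
  refine ⟨max 3 N₀, fun m n hmn t ht P hP hcol => ?_⟩
  have hmn3 : 3 ≤ m + n := le_trans (le_max_left _ _) hmn
  have hmnN : N₀ ≤ m + n := le_trans (le_max_right _ _) hmn
  have hs3 : (3 : ℝ) ≤ (m : ℝ) + n := by exact_mod_cast hmn3
  have hlog1 : 1 ≤ Real.log ((m : ℝ) + n) := by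
    rw [Real.le_log_iff_exp_le (by linarith)]
    have := Real.exp_one_lt_d9
    linarith
  have ht3 : 3 ≤ t := by linarith
  have hlt : Real.log ((m : ℝ) + n) ≤ t := by linarith
  rw [sum_filter]
  have hw : ∀ A : Fin m → Fin n → Bool,
      0 ≤ ∏ i, ∏ j, (if A i j then P i j else 1 - P i j) := by
    intro A
    refine prod_nonneg fun i _ => prod_nonneg fun j _ => ?_
    split_ifs
    · exact (hP i j).1
    · linarith [(hP i j).2]
  have h1 : ∀ A : Fin m → Fin n → Bool,
      (if (∀ x : Fin n → Bool, ∃ i,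
              6000000000000 * Real.sqrt t * (Real.log t) ^ 2 <
                |∑ j, (if A i j then (if x j then (1 : ℝ) else -1) else 0)|) then
        ∏ i, ∏ j, (if A i j then P i j else 1 - P i j) else 0) ≤
      ∑ j : Fin n, (if 5 * t < ((univ.filter fun i => A i j = true).card : ℝ) then
        ∏ i, ∏ j, (if A i j then P i j else 1 - P i j) else 0) := by
    intro A
    have hnn : ∀ j : Fin n, 0 ≤ (if 5 * t < ((univ.filter fun i => A i j = true).card : ℝ) then
        ∏ i, ∏ j, (if A i j then P i j else 1 - P i j) else 0) := by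
      intro j
      split_ifs
      · exact hw A
      · exact le_rfl
    split_ifs with h
    · obtain ⟨j, hj⟩ : ∃ j, 5 * t < ((univ.filter fun i => A i j = true).card : ℝ) := by
        by_contra hcon
        push Not at hcon
        obtain ⟨x, hx⟩ := det_part m n t ht3 hlt A hcon
        obtain ⟨i, hi⟩ := h x
        exact absurd (hx i) (not_le.2 hi)
      refine le_trans (le_of_eq ?_) (single_le_sum (fun j _ => hnn j) (mem_univ j))
      rw [if_pos hj]
    · exact sum_nonneg fun j _ => hnn j
  refine (sum_le_sum fun A _ => h1 A).trans ?_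
  rw [sum_comm]
  refine (sum_le_sum fun j _ => prob_part m n t (by linarith) P hP j (hcol j)).trans ?_
  rw [sum_const, card_univ, Fintype.card_fin, nsmul_eq_mul]
  have h2 : Real.exp (-2 * t) ≤ 1 / ((m : ℝ) + n) ^ 2 := by
    have h3 : Real.exp (-2 * t) ≤ Real.exp (-(2 * Real.log ((m : ℝ) + n))) := by
      rw [Real.exp_le_exp]
      linarith
    refine h3.trans (le_of_eq ?_)
    rw [Real.exp_neg, mul_comm, ← Real.rpow_def_of_pos (by linarith), one_div]
    norm_num
  have h4 : (n : ℝ) ≤ (m : ℝ) + n := by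
    have : (0 : ℝ) ≤ m := Nat.cast_nonneg _
    linarith
  have hpos : (0 : ℝ) < (m : ℝ) + n := by linarith
  have h5 : (n : ℝ) * Real.exp (-2 * t) ≤ ((m : ℝ) + n) * (1 / ((m : ℝ) + n) ^ 2) :=
    mul_le_mul h4 h2 (Real.exp_pos _).le hpos.le
  have h6 : ((m : ℝ) + n) * (1 / ((m : ℝ) + n) ^ 2) = 1 / ((m : ℝ) + n) := by
    field_simp
  have h7 : 1 / ε < (m : ℝ) + n := lt_of_lt_of_le hN₀ (by exact_mod_cast hmnN)
  have h8 : 1 / ((m : ℝ) + n) ≤ ε := by
    rw [div_le_iff₀ hpos]
    rw [div_lt_iff₀ hε] at h7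
    linarith
  linarith

end X225.Fct
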