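import Pool.Agent.X225.Fct.Semi

/-!
Discrepancy of semi-random matrices, without a logarithm for large `t`.
-/

set_option autoImplicit false
open Classical

namespace X225.Fct

open Finset

/-- deterministic part, without a logarithm for large `t` -/
theorem det_part2 (m n : ℕ) (t : ℝ) (ht : 3 ≤ t) (hlog : 1 ≤ Real.log ((m : ℝ) + n))
    (A : Fin m → Fin n → Bool)
    (hA : ∀ j, ((univ.filter fun i => A i j = true).card : ℝ) ≤ 5 * t) :
    ∃ x : Fin n → Bool, ∀ i, |∑ j, (if A i j then (if x j then (1 : ℝ) else -1) else 0)| ≤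
      6000000000000 * (Real.sqrt t +
        Real.sqrt (Real.log ((m : ℝ) + n)) * (Real.log t) ^ 2) := by
  obtain ⟨y, hy, hb⟩ := general (5 * t) (by linarith)
    (fun (i : Fin m) (j : Fin n) => if A i j = true then (1 : ℝ) else 0)
    (by
      intro i j
      split_ifs <;> simp)
    (by
      intro j
      refine le_trans (le_of_eq ?_) (hA j)
      rw [card_filter]
      push_cast
      refine sum_congr rfl fun i _ => ?_
      split_ifs <;> simp)
  refine ⟨fun j => decide (y j = 1), fun i => ?_⟩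
  have e : ∑ j, (if A i j then (if (decide (y j = 1) : Bool) then (1 : ℝ) else -1) else 0) =
      ∑ j, (if A i j = true then (1 : ℝ) else 0) * y j := by
    refine sum_congr rfl fun j _ => ?_
    by_cases h : A i j = true
    · rw [if_pos h, if_pos h, one_mul]
      rcases hy j with h2 | h2
      · simp [h2]
      · have : y j ≠ 1 := by rw [h2]; norm_num
        simp [h2]
        norm_num
    · rw [if_neg h, if_neg h, zero_mul]
  rw [e]
  refine (hb i).trans ?_
  have hs0 : 0 ≤ Real.sqrt t := Real.sqrt_nonneg t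
  have ht0 : 0 < t := by linarith
  have hL1 : 1 ≤ Real.log t := by
    rw [Real.le_log_iff_exp_le ht0]
    have := Real.exp_one_lt_d9
    linarith
  have h1 : Real.sqrt (5 * t) ≤ 3 * Real.sqrt t := by
    rw [Real.sqrt_le_left (by positivity)]
    rw [mul_pow, Real.sq_sqrt ht0.le]
    linarith
  set Q : ℝ := Real.log ((m : ℝ) + n) with hQ
  have hpos : (0 : ℝ) < (m : ℝ) + n := by
    by_contra hcon
    push Not at hcon
    have h3 : (0 : ℝ) ≤ m := Nat.cast_nonneg _
    have h4 : (0 : ℝ) ≤ n := Nat.cast_nonneg _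
    have h5 : (m : ℝ) + n = 0 := by linarith
    rw [hQ, h5, Real.log_zero] at hlog
    linarith
  have hge : (1 : ℝ) ≤ (m : ℝ) + n := by
    have h3 : 0 < m + n := by exact_mod_cast hpos
    exact_mod_cast h3
  have h2 : Real.log (1 + ((min m n : ℕ) : ℝ)) ≤ 1 + Q := by
    have h4 : ((min m n : ℕ) : ℝ) ≤ (m : ℝ) + n := by
      have : min m n ≤ m + n := by omega
      exact_mod_cast this
    have h5 : Real.log (1 + ((min m n : ℕ) : ℝ)) ≤ Real.log (2 * ((m : ℝ) + n)) := by
      apply Real.log_le_log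
      · have : (0 : ℝ) ≤ ((min m n : ℕ) : ℝ) := Nat.cast_nonneg _
        linarith
      · linarith
    rw [Real.log_mul (by norm_num) (by linarith)] at h5
    have h6 : Real.log 2 ≤ 1 := by
      have := Real.log_two_lt_d9; linarith
    linarith
  have hQ0 : 0 ≤ Q := by linarith
  have hsQ : 0 ≤ Real.sqrt Q := Real.sqrt_nonneg Q
  have h3 : Real.sqrt (Real.log (1 + ((min m n : ℕ) : ℝ))) ≤ 2 * Real.sqrt Q := by
    rw [Real.sqrt_le_left (by positivity)]
    rw [mul_pow, Real.sq_sqrt hQ0]
    linarith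
  have h4 : 1 + Real.log (5 * t) ≤ 5 * Real.log t := by
    rw [Real.log_mul (by norm_num) ht0.ne']
    have h5 : Real.log 5 ≤ Real.log 8 := Real.log_le_log (by norm_num) (by norm_num)
    have h6 : Real.log 8 = 3 * Real.log 2 := by
      rw [show (8 : ℝ) = 2 ^ 3 by norm_num, Real.log_pow]
      norm_num
    have := Real.log_two_lt_d9
    linarith
  have h5 : 0 ≤ 1 + Real.log (5 * t) := by
    have : 0 ≤ Real.log (5 * t) := Real.log_nonneg (by linarith)
    linarith
  have h6 : (1 + Real.log (5 * t)) ^ 2 ≤ 25 * (Real.log t) ^ 2 := by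
    have := pow_le_pow_left₀ h5 h4 2
    rw [mul_pow] at this
    norm_num at this ⊢
    exact this
  have h7 : Real.sqrt (Real.log (1 + ((min m n : ℕ) : ℝ))) * (1 + Real.log (5 * t)) ^ 2 ≤
      2 * Real.sqrt Q * (25 * (Real.log t) ^ 2) :=
    mul_le_mul h3 h6 (by positivity) (by positivity)
  have h8 : 0 ≤ Real.sqrt Q * (Real.log t) ^ 2 := by positivity
  nlinarith

/-- the semi-random model: the probability that no colouring is good -/
theorem semi_random2 (m n : ℕ) (hmn3 : 3 ≤ m + n) (t : ℝ)
    (ht : 3 * Real.log ((m : ℝ) + n) ≤ t) (P : Fin m → Fin n → ℝ)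
    (hP : ∀ i j, 0 ≤ P i j ∧ P i j ≤ 1) (hcol : ∀ j, ∑ i, P i j ≤ t) :
    ∑ A : Fin m → Fin n → Bool,
      (if (∀ x : Fin n → Bool, ∃ i,
              6000000000000 * (Real.sqrt t +
                Real.sqrt (Real.log ((m : ℝ) + n)) * (Real.log t) ^ 2) <
                |∑ j, (if A i j then (if x j then (1 : ℝ) else -1) else 0)|) then
        ∏ i, ∏ j, (if A i j then P i j else 1 - P i j) else 0) ≤ 1 / ((m : ℝ) + n) := by
  have hs3 : (3 : ℝ) ≤ (m : ℝ) + n := by exact_mod_cast hmn3
  have hlog1 : 1 ≤ Real.log ((m : ℝ) + n) := by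
    rw [Real.le_log_iff_exp_le (by linarith)]
    have := Real.exp_one_lt_d9
    linarith
  have ht3 : 3 ≤ t := by linarith
  have hw : ∀ A : Fin m → Fin n → Bool,
      0 ≤ ∏ i, ∏ j, (if A i j then P i j else 1 - P i j) := by
    intro A
    refine prod_nonneg fun i _ => prod_nonneg fun j _ => ?_
    split_ifs
    · exact (hP i j).1
    · linarith [(hP i j).2]
  have h1 : ∀ A : Fin m → Fin n → Bool,
      (if (∀ x : Fin n → Bool, ∃ i,
              6000000000000 * (Real.sqrt t +
                Real.sqrt (Real.log ((m : ℝ) + n)) * (Real.log t) ^ 2) <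
                |∑ j, (if A i j then (if x j then (1 : ℝ) else -1) else 0)|) then
        ∏ i, ∏ j, (if A i j then P i j else 1 - P i j) else 0) ≤
      ∑ j : Fin n, (if 5 * t < ((univ.filter fun i => A i j = true).card : ℝ) then
        ∏ i, ∏ j, (if A i j then P i j else 1 - P i j) else 0) := by
    intro A
    have hnn : ∀ j : Fin n, 0 ≤ (if 5 * t < ((univ.filter fun i => A i j = true).card : ℝ) then
        ∏ i, ∏ j, (if A i j then P i j else 1 - P i j) else 0) := by
      intro j
      split_ifs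
      · exact hw A
      · exact le_rfl
    split_ifs with h
    · obtain ⟨j, hj⟩ : ∃ j, 5 * t < ((univ.filter fun i => A i j = true).card : ℝ) := by
        by_contra hcon
        push Not at hcon
        obtain ⟨x, hx⟩ := det_part2 m n t ht3 hlog1 A hcon
        obtain ⟨i, hi⟩ := h x
        exact absurd (hx i) (not_le.2 hi)
      refine le_trans (le_of_eq ?_) (single_le_sum (fun j _ => hnn j) (mem_univ j))
      rw [if_pos hj]
    · exact sum_nonneg fun j _ => hnn j
  refine (sum_le_sum fun A _ => h1 A).trans ?_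
  rw [sum_comm]
  refine (sum_le_sum fun j _ => prob_part m n t (by linarith) P hP j (hcol j)).trans ?_
  rw [sum_const, card_univ, Fintype.card_fin, nsmul_eq_mul]
  have h2 : Real.exp (-2 * t) ≤ 1 / ((m : ℝ) + n) ^ 2 := by
    have h3 : Real.exp (-2 * t) ≤ Real.exp (-(2 * Real.log ((m : ℝ) + n))) := by
      rw [Real.exp_le_exp]
      linarith
    refine h3.trans (le_of_eq ?_)
    rw [Real.exp_neg, mul_comm, ← Real.rpow_def_of_pos (by linarith), one_div]
    norm_num
  have h4 : (n : ℝ) ≤ (m : ℝ) + n := by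
    have : (0 : ℝ) ≤ m := Nat.cast_nonneg _
    linarith
  have hpos : (0 : ℝ) < (m : ℝ) + n := by linarith
  have h5 : (n : ℝ) * Real.exp (-2 * t) ≤ ((m : ℝ) + n) * (1 / ((m : ℝ) + n) ^ 2) :=
    mul_le_mul h4 h2 (Real.exp_pos _).le hpos.le
  have h6 : ((m : ℝ) + n) * (1 / ((m : ℝ) + n) ^ 2) = 1 / ((m : ℝ) + n) := by
    field_simp
  linarith

end X225.Fct
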