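import Pool.Agent.H167R2.KNLin

/-!
Sign vectors for matrices with bounded row and column sums.
-/

set_option autoImplicit false

namespace X225.Fct

open Finset

theorem one_add_log_real (x : ℝ) (hx : 1 ≤ x) :
    (1 + Real.log x) ^ 3 ≤ 216 * Real.sqrt x := by
  have hn0 : (0 : ℝ) ≤ x := by linarith
  set t : ℝ := x ^ (1 / 6 : ℝ) with ht
  have ht1 : 1 ≤ t := Real.one_le_rpow hx (by norm_num)
  have h1 : Real.log x = 6 * Real.log t := by
    rw [ht, Real.log_rpow (by linarith)]; ring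
  have h2 : Real.log t ≤ t - 1 := Real.log_le_sub_one_of_pos (by linarith)
  have h3 : 0 ≤ Real.log x := Real.log_nonneg hx
  have h4 : 1 + Real.log x ≤ 6 * t := by linarith
  have h5 : t ^ 3 = Real.sqrt x := by
    rw [ht, ← Real.rpow_natCast, ← Real.rpow_mul hn0, Real.sqrt_eq_rpow]
    norm_num
  calc (1 + Real.log x) ^ 3 ≤ (6 * t) ^ 3 := by
        apply pow_le_pow_left₀ (by linarith) h4
    _ = 216 * t ^ 3 := by ring
    _ = 216 * Real.sqrt x := by rw [h5]

lemma count_nonzero {ι : Type} [Fintype ι] (R : ℝ) (hR : 1 ≤ R) (f : ι → ℝ)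
    (h : ∑ j, |f j| ≤ R) (hη : ∀ j, f j ≠ 0 → 1 / R ≤ |f j|) :
    (univ.filter fun j => f j ≠ 0).card ≤ ⌊R ^ 2⌋₊ := by
  classical
  apply Nat.le_floor
  have hR0 : 0 < R := by linarith
  have h1 : ∑ j ∈ univ.filter (fun j => f j ≠ 0), (1 / R) ≤ ∑ j, |f j| := by
    refine (sum_le_sum fun j hj => hη j (mem_filter.1 hj).2).trans ?_
    exact sum_le_sum_of_subset_of_nonneg (filter_subset _ _) fun j _ _ => abs_nonneg _
  rw [sum_const, nsmul_eq_mul] at h1
  have h2 := h1.trans h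
  rw [mul_one_div, div_le_iff₀ hR0] at h2
  nlinarith

theorem sparse {n m : ℕ} (R : ℝ) (hR : 1 ≤ R) (V : Fin n → Fin m → ℝ)
    (h1 : ∀ i j, |V i j| ≤ 1) (hrow : ∀ i, ∑ j, |V i j| ≤ R) (hcol : ∀ j, ∑ i, |V i j| ≤ R)
    (hη : ∀ i j, V i j ≠ 0 → 1 / R ≤ |V i j|) (r : ℕ) :
    ∃ y : Fin m → ℝ, (∀ j, y j = 1 ∨ y j = -1) ∧
      ∀ i, |∑ j, V i j * y j| ≤ 100000000000 * Real.sqrt R *
        (1 + r + min ((H167BK.slog^[r + 1] ((min n m : ℕ) : ℝ)) ^ (1 / 4 : ℝ))
          (Real.sqrt (H167BK.slog^[r + 1] ((min n m : ℕ) : ℝ)) / Real.sqrt R *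
            (1 + Real.log R) ^ 2)) := by
  classical
  have hR0 : (0 : ℝ) < R := by linarith
  have hs0 : 0 < Real.sqrt R := Real.sqrt_pos.2 hR0
  have hs1 : 1 ≤ Real.sqrt R := by
    rw [Real.one_le_sqrt]; exact hR
  set δ : ℝ := 1 / Real.sqrt R with hδ
  have hδ0 : 0 < δ := by positivity
  have hδ1 : δ ≤ 1 := by
    rw [hδ, div_le_one hs0]; exact hs1
  have hδ2 : δ ^ 2 = 1 / R := by
    rw [hδ, div_pow, Real.sq_sqrt hR0.le, one_pow]
  set a : Fin n → Fin m → ℝ := fun i t => δ * V i t with ha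
  have hane : ∀ i t, a i t ≠ 0 → V i t ≠ 0 := fun i t h h' => h (by simp only [ha]; rw [h', mul_zero])
  have hent : ∀ i t, |a i t| ≤ δ := by
    intro i t
    simp only [ha]
    rw [abs_mul, abs_of_pos hδ0]
    exact mul_le_of_le_one_right hδ0.le (h1 i t)
  have hcol' : ∀ t, ∑ i, a i t ^ 2 ≤ 1 := by
    intro t
    have h2 : ∀ i, a i t ^ 2 ≤ (1 / R) * |V i t| := by
      intro i
      simp only [ha]
      rw [mul_pow, hδ2, ← sq_abs (V i t)]
      apply mul_le_mul_of_nonneg_left _ (by positivity)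
      have := h1 i t
      have h0 := abs_nonneg (V i t)
      nlinarith
    refine (sum_le_sum fun i _ => h2 i).trans ?_
    rw [← mul_sum, one_div, inv_mul_le_iff₀ hR0, mul_one]
    exact hcol t
  set N : ℕ := ⌊R ^ 2⌋₊ with hN
  have hNR : (N : ℝ) ≤ R ^ 2 := Nat.floor_le (by positivity)
  have hnb : ∀ t, (H167BK.nb a t).card ≤ N * N + 1 := by
    intro t
    have h2 : H167BK.nb a t ⊆ insert t ((univ.filter fun i => V i t ≠ 0).biUnion
        fun i => univ.filter fun w => V i w ≠ 0) := by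
      intro w hw
      unfold H167BK.nb at hw
      rw [mem_filter] at hw
      rw [mem_insert, mem_biUnion]
      rcases hw.2 with h | ⟨i, h3, h4⟩
      · left
        exact h
      · right
        exact ⟨i, mem_filter.2 ⟨mem_univ _, hane _ _ h3⟩, mem_filter.2 ⟨mem_univ _, hane _ _ h4⟩⟩
    refine (card_le_card h2).trans ((card_insert_le _ _).trans ?_)
    apply Nat.add_le_add_right
    refine (card_biUnion_le_card_mul _ _ N fun i _ => ?_).trans ?_
    · exact count_nonzero R hR (V i) (hrow i) (hη i)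
    · exact Nat.mul_le_mul_right _
        (count_nonzero R hR (fun i => V i t) (hcol t) (fun i => hη i t))
  obtain ⟨y, hy1, hy2⟩ := H167KN.komlos_form2 a δ hδ0 hδ1 hent hcol' (N * N + 1)
    (by omega) hnb r (fun _ => 0) (fun _ => by simp)
  set L : ℝ := Real.log R with hL
  have hL0 : 0 ≤ L := Real.log_nonneg hR
  have hlogδ : Real.log (1 / δ) = L / 2 := by
    rw [hδ, one_div_one_div, Real.log_sqrt hR0.le]
  have hcube := one_add_log_real R hR
  rw [← hL] at hcube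
  have hlam : (1 + L / 2) ^ (3 / 2 : ℝ) ≤ (1 + L) ^ 2 := by
    calc (1 + L / 2) ^ (3 / 2 : ℝ) ≤ (1 + L / 2) ^ (2 : ℝ) :=
          Real.rpow_le_rpow_of_exponent_le (by linarith) (by norm_num)
      _ ≤ (1 + L) ^ (2 : ℝ) := Real.rpow_le_rpow (by linarith) (by linarith) (by norm_num)
      _ = (1 + L) ^ 2 := by norm_num [Real.rpow_natCast]
  have hkey : ∀ w : ℝ, 0 ≤ w → w ≤ 5 * (1 + L) →
      1 + δ * w * (1 + L / 2) ^ (3 / 2 : ℝ) ≤ 1081 := by
    intro w hw0 hw
    have hp : 0 ≤ (1 + L / 2) ^ (3 / 2 : ℝ) := by positivity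
    have h1 : δ * w * (1 + L / 2) ^ (3 / 2 : ℝ) ≤ δ * (5 * (1 + L)) * (1 + L) ^ 2 := by
      apply mul_le_mul (mul_le_mul_of_nonneg_left hw hδ0.le) hlam hp
      positivity
    have h2 : δ * (5 * (1 + L)) * (1 + L) ^ 2 = 5 * (δ * (1 + L) ^ 3) := by ring
    have h3 : δ * (1 + L) ^ 3 ≤ 216 := by
      rw [hδ, one_div, inv_mul_le_iff₀ hs0]
      linarith
    linarith
  -- the neighbourhoods
  set M : ℝ := Real.log ((N * N + 1 : ℕ) : ℝ) with hM
  have hM0 : 0 ≤ M := Real.log_nonneg (by push_cast; nlinarith [Nat.cast_nonneg (α := ℝ) N])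
  have hM1 : M ≤ 1 + 4 * L := by
    have h2 : ((N * N + 1 : ℕ) : ℝ) ≤ 2 * R ^ 4 := by
      push_cast
      have h3 : (N : ℝ) * N ≤ R ^ 2 * R ^ 2 :=
        mul_le_mul hNR hNR (Nat.cast_nonneg _) (by positivity)
      have h4 : 1 ≤ R ^ 4 := one_le_pow₀ hR
      nlinarith
    have h3 := Real.log_le_log (by positivity) h2
    rw [Real.log_mul (by norm_num) (by positivity), Real.log_pow, ← hM] at h3
    have h4 : Real.log 2 ≤ 1 := by
      have := Real.log_two_lt_d9; linarith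
    push_cast at h3
    linarith
  have hA : Real.sqrt ((1 + M) * (1 + L / 2 + Real.log (1 + M))) ≤ 5 * (1 + L) := by
    have h2 : Real.log (1 + M) ≤ M := by
      have := Real.log_le_sub_one_of_pos (show 0 < 1 + M by linarith)
      linarith
    have h3 : 0 ≤ Real.log (1 + M) := Real.log_nonneg (by linarith)
    rw [Real.sqrt_le_left (by linarith)]
    have h4 : (1 + M) * (1 + L / 2 + Real.log (1 + M)) ≤
        (2 + 4 * L) * (1 + L / 2 + (1 + 4 * L)) := by
      apply mul_le_mul (by linarith) (by linarith) (by linarith) (by linarith)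
    nlinarith
  set Z : ℝ := H167BK.slog^[r + 1] ((min n m : ℕ) : ℝ) with hZ
  have hZ0 : 0 ≤ Z := H167BK.slog_iter_nonneg _ (Nat.cast_nonneg _)
  have hlast : min ((1 + L / 2 + Z) ^ (1 / 4 : ℝ))
      (1 + δ * Real.sqrt (1 + L / 2 + Z) * (1 + L / 2) ^ (3 / 2 : ℝ)) ≤
      1081 * (1 + Z ^ (1 / 4 : ℝ)) := by
    have hZ4 : 0 ≤ Z ^ (1 / 4 : ℝ) := by positivity
    rcases le_total Z (1 + L) with h | h
    · refine (min_le_right _ _).trans ((hkey _ (Real.sqrt_nonneg _) ?_).trans ?_)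
      · rw [Real.sqrt_le_left (by linarith)]
        nlinarith
      · linarith
    · refine (min_le_left _ _).trans ?_
      have h2 : (1 + L / 2 + Z) ^ (1 / 4 : ℝ) ≤ (16 * Z) ^ (1 / 4 : ℝ) :=
        Real.rpow_le_rpow (by linarith) (by linarith) (by norm_num)
      rw [Real.mul_rpow (by norm_num) hZ0] at h2
      have h3 : (16 : ℝ) ^ (1 / 4 : ℝ) = 2 := by
        rw [show (16 : ℝ) = 2 ^ (4 : ℝ) by norm_num, ← Real.rpow_mul (by norm_num)]
        norm_num
      rw [h3] at h2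
      linarith
  have hsq : Real.sqrt (1 + L / 2 + Z) ≤ (1 + L) + Real.sqrt Z := by
    rw [Real.sqrt_le_left (by positivity)]
    have h2 := Real.sq_sqrt hZ0
    have h3 := Real.sqrt_nonneg Z
    nlinarith
  set Y : ℝ := min (Z ^ (1 / 4 : ℝ)) (Real.sqrt Z / Real.sqrt R * (1 + L) ^ 2) with hY
  have hY0 : 0 ≤ Y := le_min (by positivity) (by positivity)
  have hlast2 : min ((1 + L / 2 + Z) ^ (1 / 4 : ℝ))
      (1 + δ * Real.sqrt (1 + L / 2 + Z) * (1 + L / 2) ^ (3 / 2 : ℝ)) ≤ 1081 * (1 + Y) := by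
    rcases min_choice (Z ^ (1 / 4 : ℝ)) (Real.sqrt Z / Real.sqrt R * (1 + L) ^ 2) with h | h
    · rw [hY, h]
      exact hlast
    · rw [hY, h]
      refine (min_le_right _ _).trans ?_
      have h2 : δ * Real.sqrt (1 + L / 2 + Z) * (1 + L / 2) ^ (3 / 2 : ℝ) ≤
          δ * ((1 + L) + Real.sqrt Z) * (1 + L) ^ 2 := by
        apply mul_le_mul (mul_le_mul_of_nonneg_left hsq hδ0.le) hlam (by positivity)
        positivity
      have h3 : δ * (1 + L) ^ 3 ≤ 216 := by
        rw [hδ, one_div, inv_mul_le_iff₀ hs0]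
        linarith
      have h4 : δ * ((1 + L) + Real.sqrt Z) * (1 + L) ^ 2 = δ * (1 + L) ^ 3 +
          Real.sqrt Z / Real.sqrt R * (1 + L) ^ 2 := by
        rw [hδ]
        ring
      have h5 : 0 ≤ Real.sqrt Z / Real.sqrt R * (1 + L) ^ 2 := by positivity
      linarith
  have hbound : ∀ i, |∑ t, a i t * y t| ≤
      100000000000 * (1 + r + Y) := by
    intro i
    have h := hy2 i
    simp only [sub_zero] at h
    refine h.trans ?_
    have hcard : ((min (Fintype.card (Fin n)) (Fintype.card (Fin m)) : ℕ) : ℝ) =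
        ((min n m : ℕ) : ℝ) := by simp
    rw [hcard, hlogδ, ← hZ]
    have h2 := (min_le_right (((1 + M) * (1 + L / 2 + Real.log (1 + M))) ^ (1 / 4 : ℝ))
      _).trans (hkey _ (Real.sqrt_nonneg _) hA)
    have h3 : (r : ℝ) * min (((1 + M) * (1 + L / 2 + Real.log (1 + M))) ^ (1 / 4 : ℝ))
        (1 + δ * Real.sqrt ((1 + M) * (1 + L / 2 + Real.log (1 + M))) *
          (1 + L / 2) ^ (3 / 2 : ℝ)) ≤ r * 1081 :=
      mul_le_mul_of_nonneg_left h2 (Nat.cast_nonneg _)
    have hZ4 : 0 ≤ Z ^ (1 / 4 : ℝ) := by positivity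
    have hr0 : (0 : ℝ) ≤ r := Nat.cast_nonneg _
    linarith
  refine ⟨y, fun j => eq_or_eq_neg_of_abs_eq (hy1 j), fun i => ?_⟩
  have e3 : ∑ t, a i t * y t = δ * ∑ t, V i t * y t := by
    rw [mul_sum]
    refine sum_congr rfl fun t _ => ?_
    simp only [ha]
    ring
  have h5 := hbound i
  rw [e3, abs_mul, abs_of_pos hδ0, hδ, one_div, inv_mul_le_iff₀ hs0] at h5
  linarith

/-- no condition on the entries, one logarithm of the dimension -/
theorem general {n m : ℕ} (R : ℝ) (hR : 1 ≤ R) (V : Fin n → Fin m → ℝ)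
    (h1 : ∀ i j, |V i j| ≤ 1) (hcol : ∀ j, ∑ i, |V i j| ≤ R) :
    ∃ y : Fin m → ℝ, (∀ j, y j = 1 ∨ y j = -1) ∧
      ∀ i, |∑ j, V i j * y j| ≤ 100000000000 *
        (Real.sqrt R + Real.sqrt (Real.log (1 + ((min n m : ℕ) : ℝ))) * (1 + Real.log R) ^ 2) := by
  classical
  have hR0 : (0 : ℝ) < R := by linarith
  have hs0 : 0 < Real.sqrt R := Real.sqrt_pos.2 hR0
  have hs1 : 1 ≤ Real.sqrt R := by
    rw [Real.one_le_sqrt]; exact hR
  set δ : ℝ := 1 / Real.sqrt R with hδ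
  have hδ0 : 0 < δ := by positivity
  have hδ1 : δ ≤ 1 := by
    rw [hδ, div_le_one hs0]; exact hs1
  have hδ2 : δ ^ 2 = 1 / R := by
    rw [hδ, div_pow, Real.sq_sqrt hR0.le, one_pow]
  set a : Fin n → Fin m → ℝ := fun i t => δ * V i t with ha
  have hent : ∀ i t, |a i t| ≤ δ := by
    intro i t
    simp only [ha]
    rw [abs_mul, abs_of_pos hδ0]
    exact mul_le_of_le_one_right hδ0.le (h1 i t)
  have hcol' : ∀ t, ∑ i, a i t ^ 2 ≤ 1 := by
    intro t
    have h2 : ∀ i, a i t ^ 2 ≤ (1 / R) * |V i t| := by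
      intro i
      simp only [ha]
      rw [mul_pow, hδ2, ← sq_abs (V i t)]
      apply mul_le_mul_of_nonneg_left _ (by positivity)
      have := h1 i t
      have h0 := abs_nonneg (V i t)
      nlinarith
    refine (sum_le_sum fun i _ => h2 i).trans ?_
    rw [← mul_sum, one_div, inv_mul_le_iff₀ hR0, mul_one]
    exact hcol t
  have hnb : ∀ t, (H167BK.nb a t).card ≤ m + 1 := by
    intro t
    refine (card_le_univ _).trans ?_
    rw [Fintype.card_fin]
    omega
  obtain ⟨y, hy1, hy2⟩ := H167KN.komlos_form2 a δ hδ0 hδ1 hent hcol' (m + 1)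
    (by omega) hnb 0 (fun _ => 0) (fun _ => by simp)
  set L : ℝ := Real.log R with hL
  have hL0 : 0 ≤ L := Real.log_nonneg hR
  have hlogδ : Real.log (1 / δ) = L / 2 := by
    rw [hδ, one_div_one_div, Real.log_sqrt hR0.le]
  have hcube := one_add_log_real R hR
  rw [← hL] at hcube
  have hlam : (1 + L / 2) ^ (3 / 2 : ℝ) ≤ (1 + L) ^ 2 := by
    calc (1 + L / 2) ^ (3 / 2 : ℝ) ≤ (1 + L / 2) ^ (2 : ℝ) :=
          Real.rpow_le_rpow_of_exponent_le (by linarith) (by norm_num)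
      _ ≤ (1 + L) ^ (2 : ℝ) := Real.rpow_le_rpow (by linarith) (by linarith) (by norm_num)
      _ = (1 + L) ^ 2 := by norm_num [Real.rpow_natCast]
  set Z : ℝ := Real.log (1 + ((min n m : ℕ) : ℝ)) with hZ
  have hZ0 : 0 ≤ Z := Real.log_nonneg (by
    have : (0 : ℝ) ≤ ((min n m : ℕ) : ℝ) := Nat.cast_nonneg _
    linarith)
  have hsq : Real.sqrt (1 + L / 2 + Z) ≤ (1 + L) + Real.sqrt Z := by
    rw [Real.sqrt_le_left (by positivity)]
    have h2 := Real.sq_sqrt hZ0
    have h3 := Real.sqrt_nonneg Z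
    nlinarith
  have hbound : ∀ i, |∑ t, a i t * y t| ≤
      70000000 * (1 + δ * ((1 + L) + Real.sqrt Z) * (1 + L) ^ 2) := by
    intro i
    have h := hy2 i
    simp only [sub_zero] at h
    refine h.trans ?_
    apply mul_le_mul_of_nonneg_left _ (by norm_num)
    have hcard : ((min (Fintype.card (Fin n)) (Fintype.card (Fin m)) : ℕ) : ℝ) =
        ((min n m : ℕ) : ℝ) := by simp
    have e1 : (H167BK.slog^[0 + 1]) ((min n m : ℕ) : ℝ) = Z := by
      simp [H167BK.slog, hZ]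
    rw [hcard, hlogδ, e1, Nat.cast_zero, zero_mul, zero_add]
    refine (min_le_right _ _).trans ?_
    have h2 : δ * Real.sqrt (1 + L / 2 + Z) * (1 + L / 2) ^ (3 / 2 : ℝ) ≤
        δ * ((1 + L) + Real.sqrt Z) * (1 + L) ^ 2 := by
      apply mul_le_mul (mul_le_mul_of_nonneg_left hsq hδ0.le) hlam (by positivity)
      positivity
    linarith
  refine ⟨y, fun j => eq_or_eq_neg_of_abs_eq (hy1 j), fun i => ?_⟩
  have e3 : ∑ t, a i t * y t = δ * ∑ t, V i t * y t := by
    rw [mul_sum]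
    refine sum_congr rfl fun t _ => ?_
    simp only [ha]
    ring
  have h5 := hbound i
  rw [e3, abs_mul, abs_of_pos hδ0, hδ, one_div, inv_mul_le_iff₀ hs0] at h5
  have h6 : Real.sqrt R * (70000000 * (1 + (Real.sqrt R)⁻¹ * ((1 + L) + Real.sqrt Z) *
      (1 + L) ^ 2)) = 70000000 * (Real.sqrt R + (1 + L) ^ 3 + Real.sqrt Z * (1 + L) ^ 2) := by
    field_simp
    ring
  rw [h6] at h5
  have h7 : 0 ≤ Real.sqrt Z * (1 + L) ^ 2 := by positivity
  linarith

lemma slog_half (x : ℝ) (hx : 0 ≤ x) : Real.log (1 + x) ≤ x / 2 + 1 / 5 := by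
  have h1 : Real.log (1 + x) = Real.log 2 + Real.log ((1 + x) / 2) := by
    rw [← Real.log_mul (by norm_num) (by positivity)]
    congr 1
    ring
  have h2 := Real.log_le_sub_one_of_pos (show 0 < (1 + x) / 2 by positivity)
  have h3 := Real.log_two_lt_d9
  linarith

lemma slog_iter_le (x : ℝ) (hx : 0 ≤ x) (k : ℕ) :
    0 ≤ (fun t : ℝ => Real.log (1 + t))^[k] x ∧
      (fun t : ℝ => Real.log (1 + t))^[k] x ≤ x / 2 ^ k + 2 / 5 := by
  induction k with
  | zero =>
    simp only [Function.iterate_zero, id, pow_zero, div_one]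
    exact ⟨hx, by linarith⟩
  | succ k ih =>
    rw [Function.iterate_succ_apply']
    obtain ⟨h1, h2⟩ := ih
    refine ⟨Real.log_nonneg (by linarith), ?_⟩
    have h3 := slog_half _ h1
    rw [pow_succ]
    have h4 : x / (2 ^ k * 2) = x / 2 ^ k / 2 := by
      rw [div_div]
    rw [h4]
    linarith

lemma exists_small (N : ℕ) : ∃ k : ℕ, (fun t : ℝ => Real.log (1 + t))^[k] (N : ℝ) ≤ 1 := by
  refine ⟨2 * N, (slog_iter_le _ (Nat.cast_nonneg _) _).2.trans ?_⟩
  have h1 : ((2 * N : ℕ) : ℝ) ≤ 2 ^ (2 * N) := by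
    exact_mod_cast (Nat.lt_two_pow_self (n := 2 * N)).le
  have h2 : (N : ℝ) / 2 ^ (2 * N) ≤ 1 / 2 := by
    rw [div_le_iff₀ (by positivity)]
    push_cast at h1
    linarith
  linarith

end X225.Fct
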